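import Mathlib
import Pool.Agent.helper70.Fin1

open Complex

namespace Pool.Agent.Results.MP_0ec205_nt.Doubling

/-- For every real `α` there are infinitely many `ρ` in the upper half plane whose multiplicity as
a zero of `ζ` exceeds the multiplicity of `1/2 + 2(ρ - 1/2) + iα`. -/
theorem result (α : ℝ) :
    {ρ : ℂ | 0 < ρ.im ∧ analyticOrderNatAt riemannZeta (1 / 2 + 2 * (ρ - 1 / 2) + α * I) <
      analyticOrderNatAt riemannZeta ρ}.Infinite := by
  have h := Pool.Agent.helper70.dilation_infinite 2 (by norm_num) le_rfl α (by norm_num)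
  have e : ((2 : ℚ) : ℂ) = 2 := by norm_num
  rw [e] at h
  exact h

end Pool.Agent.Results.MP_0ec205_nt.Doubling
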