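import Mathlib
import Pool.Agent.helper70.Short2

open Complex

namespace Pool.Agent.Results.MP_0ec205_nt.ShortIntervals

/-- Let `r` be rational with `1 ≤ r < 2`, `α` real, `(r, α) ≠ (1, 0)`, and `ε > 0`. For all large
`T` there is a `ρ` with `|Im ρ - T| ≤ T ^ (r - 1 + ε)` whose multiplicity as a zero of `ζ` exceeds
the multiplicity of `1/2 + r(ρ - 1/2) + iα`. -/
theorem result (r : ℚ) (hr1 : 1 ≤ r) (hr2 : r < 2) (α : ℝ) (hne : ¬ (r = 1 ∧ α = 0))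
    (ε : ℝ) (hε : 0 < ε) :
    ∃ T0 : ℝ, ∀ T : ℝ, T0 ≤ T → ∃ ρ : ℂ, |ρ.im - T| ≤ T ^ ((r : ℝ) - 1 + ε) ∧
      analyticOrderNatAt riemannZeta (1 / 2 + r * (ρ - 1 / 2) + α * I) <
        analyticOrderNatAt riemannZeta ρ :=
  Pool.Agent.helper70.short_rat r hr1 hr2 α hne ε hε

end Pool.Agent.Results.MP_0ec205_nt.ShortIntervals
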